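import Pool.Agent.Lib.helper9.DiKit

namespace Pool.Agent.Results.MP_c99d13_lc.NPComplete

open Pool.Agent.Cx Pool.Agent.Cis Relation Polynomial

/-- `l` lists the arcs of a walk from `x` to `y` in the digraph with arc relation `A` that
alternates forward and backward arcs, the first and the last arc being forward -/
inductive Alt {V : Type} (A : V → V → Prop) (y : V) : V → List (V × V) → Prop
  | one {x} : A x y → Alt A y x [(x, y)]
  | step {x u v l} : A x u → A v u → Alt A y v l → Alt A y x ((x, u) :: (v, u) :: l)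

/-- at least three vertices, and a forward antidirected trail between any two distinct ones -/
def Antistrong {V : Type} (A : V → V → Prop) : Prop :=
  3 ≤ Nat.card V ∧ ∀ x y, x ≠ y → ∃ l, Alt A y x l ∧ l.Nodup

/-- a directed path from any vertex to any vertex -/
def Strong {V : Type} (A : V → V → Prop) : Prop := ∀ x y, ReflTransGen A x y

/-- two arc-disjoint spanning subdigraphs, the first antistrong, the second strong -/
def Split {V : Type} (D : V → V → Prop) : Prop :=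
  ∃ A B : V → V → Prop, (∀ x y, A x y → D x y) ∧ (∀ x y, B x y → D x y) ∧
    (∀ x y, ¬ (A x y ∧ B x y)) ∧ Antistrong A ∧ Strong B

/-- `M` is the adjacency matrix of a digraph with such a pair -/
def Rec (M : List (List Bool)) : Prop := IsDi M ∧ Split fun x y : Fin M.length => Entry M x y

section
variable {V : Type} {A : V → V → Prop} {y : V}

lemma suf {x : V} {l : List (V × V)} (h : Alt A y x l) : ∀ a ∈ l, (∃ k, k <:+ l ∧ Alt A y a.1 k) ∧
    (a.2 = y ∨ ∃ v k, (v, a.2) :: k <:+ l ∧ A v a.2 ∧ Alt A y v k) := by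
  induction h with
  | one e => simpa using ⟨_, List.suffix_rfl, .one e⟩
  | @step x u v l e e' h ih =>
    have s : l <:+ (x, u) :: (v, u) :: l := (List.suffix_cons _ _).trans (List.suffix_cons _ _)
    simp only [List.mem_cons]
    rintro a (rfl | rfl | ha)
    · exact ⟨⟨_, List.suffix_rfl, .step e e' h⟩, Or.inr ⟨v, l, List.suffix_cons _ _, e', h⟩⟩
    · exact ⟨⟨_, s, h⟩, Or.inr ⟨v, l, List.suffix_cons _ _, e', h⟩⟩
    · obtain ⟨⟨k, k1, k2⟩, g⟩ := ih a ha
      exact ⟨⟨k, k1.trans s, k2⟩, g.imp id fun ⟨v, k, a, b⟩ => ⟨v, k, a.trans s, b⟩⟩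

lemma alt_iff {x : V} : (∃ l, Alt A y x l ∧ l.Nodup) ↔
    ∃ v, ReflTransGen (fun a b => ∃ u, A a u ∧ A b u) x v ∧ A v y := by
  constructor
  · rintro ⟨l, h, -⟩
    induction h with
    | one e => exact ⟨_, .refl, e⟩
    | step e e' _ ih => exact let ⟨v, a, b⟩ := ih; ⟨v, .head ⟨_, e, e'⟩ a, b⟩
  · rintro ⟨v, h, e⟩
    induction h using ReflTransGen.head_induction_on with
    | refl => exact ⟨_, .one e, by simp⟩
    | @head x w g _ ih =>
      obtain ⟨u, a, b⟩ := g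
      obtain ⟨l, l1, l2⟩ := ih
      by_cases c : (x, u) ∈ l
      · obtain ⟨k, k1, k2⟩ := (suf l1 _ c).1
        exact ⟨k, k2, l2.sublist k1.sublist⟩
      by_cases d : (w, u) ∈ l
      · rcases (suf l1 _ d).2 with rfl | ⟨z, k, k1, k2, k3⟩
        · exact ⟨_, .one a, by simp⟩
        · exact ⟨_, .step a k2 k3, List.nodup_cons.2 ⟨fun h => c (k1.subset h), l2.sublist k1.sublist⟩⟩
      by_cases e : x = w
      · exact ⟨l, e ▸ l1, l2⟩
      · exact ⟨_, .step a b l1, by simp [*]⟩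

end

abbrev T := ℕ × ℕ × ℕ

/-- a path vertex that belongs to a clause -/
def lk (K : List (List ℕ)) (p : T) : Prop := p.2.2 < K.length ∧ min (ke K p.2.2 p.2.1) 2 + 3 = p.1 ∧ 3 < p.1

def ser (n m : ℕ) (p q : T) : Prop :=
  (3 < p.1 ∧ q.1 = p.1 ∧ q.2.1 = p.2.1 ∧ q.2.2 = p.2.2 + 1) ∨
  (3 < p.1 ∧ 3 < q.1 ∧ p.2.2 = m ∧ q.2.1 = p.2.1 + 1 ∧ q.2.2 = 0) ∨
  (p.1 = 0 ∧ 3 < q.1 ∧ q.2.1 = 0 ∧ q.2.2 = 0) ∨ (3 < p.1 ∧ p.2.1 + 1 = n ∧ p.2.2 = m ∧ q.1 = 1)

def arc (n : ℕ) (K : List (List ℕ)) (p q : T) : Prop :=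
  (q.1 = 0 ∧ p.1 ≠ 3 ∧ ¬ lk K p ∧ (p.1 ≠ 0 ∨ p.2.1 ≠ q.2.1)) ∨
  (p.1 = 1 ∧ q.1 ≠ 2 ∧ (q.1 ≠ 1 ∨ p.2.1 ≠ q.2.1)) ∨
  ((p.1 = 3 ∨ lk K p) ∧ q.1 = 2 ∧ p.2.2 = q.2.2) ∨ ser n K.length p q

instance (n : ℕ) (K : List (List ℕ)) : DecidableRel (arc n K) := fun _ _ => by
  unfold arc ser lk; infer_instance

def ok (n m : ℕ) (p : T) : Prop :=
  (p.1 < 2 ∧ p.2.1 < 3 ∧ p.2.2 = 0) ∨ (2 ≤ p.1 ∧ p.1 < 4 ∧ p.2.1 < 3 ∧ p.2.2 < m) ∨
  (4 ≤ p.1 ∧ p.1 < 6 ∧ p.2.1 < n ∧ p.2.2 ≤ m)

instance (n m : ℕ) : DecidablePred (ok n m) := fun _ => by unfold ok; infer_instance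

/-- the strong part, when path `t v` is used for variable `v` -/
def two (n : ℕ) (K : List (List ℕ)) (t : ℕ → ℕ) (p q : T) : Prop :=
  (q.1 = 0 ∧ q.2.1 = 0 ∧ p.1 ≠ 1 ∧ p.1 ≠ 3 ∧ ¬ lk K p ∧ (p.1 ≠ 0 ∨ p.2.1 ≠ 0)) ∨
  (p.1 = 1 ∧ p.2.1 = 0 ∧ q.1 ≠ 0 ∧ q.1 ≠ 2 ∧ (q.1 ≠ 1 ∨ q.2.1 ≠ 0)) ∨
  (p.1 = 1 ∧ q.1 = 0 ∧ p.2.1 = q.2.1) ∨ (p.1 = 3 ∧ q.1 = 2 ∧ p.2.1 = q.2.1 ∧ p.2.2 = q.2.2) ∨
  (lk K p ∧ q.1 = 2 ∧ q.2.1 = 0 ∧ p.2.2 = q.2.2) ∨
  (ser n K.length p q ∧ (p.1 = t p.2.1 ∨ (p.1 = 0 ∧ p.2.1 = 0)) ∧ (q.1 = t q.2.1 ∨ (q.1 = 1 ∧ q.2.1 = 0)))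

lemma two_arc {n : ℕ} {K : List (List ℕ)} {t : ℕ → ℕ} {p q : T} (h : two n K t p q) : arc n K p q := by
  rcases h with h | h | h | h | h | h
  · exact Or.inl ⟨h.1, h.2.2.2.1, h.2.2.2.2.1, by omega⟩
  · exact Or.inr (Or.inl (by omega))
  · exact Or.inr (Or.inl (by omega))
  · exact Or.inr (Or.inr (Or.inl ⟨Or.inl h.1, by omega⟩))
  · exact Or.inr (Or.inr (Or.inl ⟨Or.inr h.1, by omega⟩))
  · exact Or.inr (Or.inr (Or.inr h.1))

lemma cut {n : ℕ} {K : List (List ℕ)} {p q : T} {v i j : ℕ} (g : arc n K p q) (hv : v < n)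
    (hq : ok n K.length q) (hi : i < K.length) (hj : j < K.length)
    (c1 : ¬ (p = (4, v, i) ∧ q = (4, v, i + 1))) (c2 : ¬ (p = (5, v, j) ∧ q = (5, v, j + 1)))
    (h : p.1 = 0 ∨ p.1 = 2 ∨ (3 < p.1 ∧ (p.2.1 < v ∨
      (p.2.1 = v ∧ ((p.1 = 4 ∧ p.2.2 ≤ i) ∨ (p.1 = 5 ∧ p.2.2 ≤ j)))))) :
    q.1 = 0 ∨ q.1 = 2 ∨ (3 < q.1 ∧ (q.2.1 < v ∨
      (q.2.1 = v ∧ ((q.1 = 4 ∧ q.2.2 ≤ i) ∨ (q.1 = 5 ∧ q.2.2 ≤ j))))) := by
  have hq' : q.1 < 6 := by unfold ok at hq; omega
  clear hq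
  simp only [Prod.ext_iff] at c1 c2
  rcases g with g | g | g | g | g | g | g
  · exact Or.inl g.1
  · omega
  · exact Or.inr (Or.inl g.2.1)
  all_goals omega

lemma out {n : ℕ} {K : List (List ℕ)} {p q : T} (g : arc n K p q) (h : p.1 = 3 ∨ lk K p) :
    (q.1 = 2 ∧ q.2.2 = p.2.2) ∨ (lk K p ∧ q = (p.1, p.2.1, p.2.2 + 1)) := by
  simp only [Prod.ext_iff]
  rcases g with g | g | g | g
  · tauto
  · unfold lk at h; omega
  · omega
  · unfold ser lk at *; omega

lemma inn {n : ℕ} {K : List (List ℕ)} {p q : T} (g : arc n K p q) (h : q.1 = 2) :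
    (p.1 = 3 ∨ lk K p) ∧ p.2.2 = q.2.2 := by
  rcases g with g | g | g | g
  · omega
  · omega
  · exact ⟨g.1, g.2.2⟩
  · unfold ser at g; omega

section
variable {V : Type} {D : V → V → Prop} {n : ℕ} {K : List (List ℕ)} {f : V → T}
  (h1 : ∀ a c, D a c ↔ arc n K (f a) (f c)) (h2 : ∀ p, (∃ a, f a = p) ↔ ok n K.length p)
  (h3 : f.Injective) (h0 : 0 < n)
include h1 h2 h3 h0

omit h1 in
lemma strong {t : ℕ → ℕ} (ht : ∀ v, t v = 4 ∨ t v = 5) : Strong fun a c => two n K t (f a) (f c) := by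
  have ex : ∀ p, ok n K.length p → ∃ a, f a = p := fun p => (h2 p).2
  obtain ⟨s, hs⟩ := ex (0, 0, 0) (by simp [ok])
  obtain ⟨z, hz⟩ := ex (1, 0, 0) (by simp [ok])
  have e0 : ∀ a, (f a).1 ≠ 1 → (f a).1 ≠ 3 → ¬ lk K (f a) →
      ReflTransGen (fun a c => two n K t (f a) (f c)) a s := fun a a1 a2 a3 => by
    by_cases e : a = s
    · exact e ▸ .refl
    · have := (h2 _).1 ⟨a, rfl⟩
      refine .single (Or.inl ⟨by simp [hs], by simp [hs], a1, a2, a3, by_contra fun c => e (h3 ?_)⟩)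
      unfold ok at this
      rw [hs]; ext <;> simp <;> omega
  have e1 : ∀ a, ReflTransGen (fun a c => two n K t (f a) (f c)) a s := fun a => by
    have := (h2 _).1 ⟨a, rfl⟩
    by_cases c : (f a).1 = 1
    · obtain ⟨b, hb⟩ := ex (0, (f a).2.1, 0) (by unfold ok at *; simp; omega)
      exact .head (by simp [two, hb, c]) (e0 b (by simp [hb]) (by simp [hb]) (by simp [hb, lk]))
    by_cases d : (f a).1 = 3
    · obtain ⟨b, hb⟩ := ex (2, (f a).2) (by unfold ok at *; simp; omega)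
      exact .head (by simp [two, hb, d]) (e0 b (by simp [hb]) (by simp [hb]) (by simp [hb, lk]))
    by_cases e : lk K (f a)
    · obtain ⟨b, hb⟩ := ex (2, 0, (f a).2.2) (by have := e.1; unfold ok at *; simp; omega)
      exact .head (by simp [two, hb, e]) (e0 b (by simp [hb]) (by simp [hb]) (by simp [hb, lk]))
    · exact e0 a c d e
  have e2 : ∀ v j a, f a = (t v, v, j) → ReflTransGen (fun a c => two n K t (f a) (f c)) s a := by
    intro v
    induction v with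
    | zero =>
      intro j
      induction j with
      | zero => exact fun a ha => .single (by have := ht 0; simp [two, ser, hs, ha]; omega)
      | succ j ih =>
        intro a ha
        have := (h2 _).1 ⟨a, ha⟩
        have := ht 0
        obtain ⟨b, hb⟩ := ex (t 0, 0, j) (by unfold ok at *; simp at *; omega)
        exact (ih b hb).tail (by simp [two, ser, hb, ha]; omega)
    | succ v iv =>
      intro j
      have := ht v
      have := ht (v + 1)
      induction j with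
      | zero =>
        intro a ha
        have := (h2 _).1 ⟨a, ha⟩
        obtain ⟨b, hb⟩ := ex (t v, v, K.length) (by unfold ok at *; simp at *; omega)
        exact (iv _ b hb).tail (by simp [two, ser, hb, ha]; omega)
      | succ j ih =>
        intro a ha
        have := (h2 _).1 ⟨a, ha⟩
        obtain ⟨b, hb⟩ := ex (t (v + 1), v + 1, j) (by unfold ok at *; simp at *; omega)
        exact (ih b hb).tail (by simp [two, ser, hb, ha]; omega)
  have e3 : ReflTransGen (fun a c => two n K t (f a) (f c)) s z := by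
    have := ht (n - 1)
    obtain ⟨b, hb⟩ := ex (t (n - 1), n - 1, K.length) (by unfold ok at *; simp at *; omega)
    exact (e2 _ _ b hb).tail (by simp [two, ser, hb, hz]; omega)
  have e4 : ∀ a, (f a).1 ≠ 0 → (f a).1 ≠ 2 →
      ReflTransGen (fun a c => two n K t (f a) (f c)) s a := fun a a1 a2 => by
    by_cases e : a = z
    · exact e ▸ e3
    · have := (h2 _).1 ⟨a, rfl⟩
      refine e3.tail (Or.inr (Or.inl ⟨by simp [hz], by simp [hz], a1, a2, by_contra fun c => e (h3 ?_)⟩))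
      unfold ok at this
      rw [hz]; ext <;> simp <;> omega
  refine fun x a => (e1 x).trans ?_
  have := (h2 _).1 ⟨a, rfl⟩
  by_cases c : (f a).1 = 0
  · obtain ⟨b, hb⟩ := ex (1, (f a).2.1, 0) (by unfold ok at *; simp; omega)
    exact (e4 b (by simp [hb]) (by simp [hb])).tail (by simp [two, hb, c])
  by_cases d : (f a).1 = 2
  · obtain ⟨b, hb⟩ := ex (3, (f a).2) (by unfold ok at *; simp; omega)
    exact (e4 b (by simp [hb]) (by simp [hb])).tail (by simp [two, hb, d])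
  · exact e4 a c d

omit h3 in
lemma anti {t : ℕ → ℕ} (ht : ∀ v, t v = 4 ∨ t v = 5)
    (hK : ∀ j < K.length, ∃ v < n, lk K (9 - t v, v, j)) (x y : V) :
    ∃ v, ReflTransGen (fun a b => ∃ u, (D a u ∧ ¬ two n K t (f a) (f u)) ∧
      D b u ∧ ¬ two n K t (f b) (f u)) x v ∧ D v y ∧ ¬ two n K t (f v) (f y) := by
  have ex : ∀ p, ok n K.length p → ∃ a, f a = p := fun p => (h2 p).2
  obtain ⟨z, hz⟩ := ex (1, 1, 0) (by simp [ok])
  set R := fun a b => ∃ u, (D a u ∧ ¬ two n K t (f a) (f u)) ∧ D b u ∧ ¬ two n K t (f b) (f u)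
  have via : ∀ a b p, ok n K.length p → (arc n K (f a) p ∧ ¬ two n K t (f a) p) →
      (arc n K (f b) p ∧ ¬ two n K t (f b) p) → R a b := fun a b p hp g g' => by
    obtain ⟨u, rfl⟩ := ex p hp
    exact ⟨u, by rwa [h1], by rwa [h1]⟩
  have e1 : ∀ a, ReflTransGen R a z := fun a => by
    have := (h2 _).1 ⟨a, rfl⟩
    have := ht 0
    by_cases c : (f a).1 = 0
    · exact .single (via a z (9 - t 0, 0, 0) (by unfold ok; simp; omega)
        (by simp [arc, two, ser, lk, c]; omega) (by simp [arc, two, ser, lk, hz]; omega))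
    by_cases d : (f a).1 = 3 ∨ lk K (f a)
    · obtain ⟨v, v1, v2⟩ := hK (f a).2.2 (by unfold ok lk at *; omega)
      have := ht v
      have := v2.1
      obtain ⟨b, hb⟩ := ex (9 - t v, v, (f a).2.2) (by unfold ok; simp at *; omega)
      refine .head (b := b) (via a b (2, if (f a).2.1 = 1 then 2 else 1, (f a).2.2) ?_ ?_ ?_)
        (.single (via b z (9 - t v, v, (f a).2.2 + 1) ?_ ?_ ?_))
      · unfold ok; simp at *; split_ifs <;> omega
      · simp only [arc, two, ser, d]; split_ifs <;> simp <;> omega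
      · simp only [arc, two, ser, hb, v2]; split_ifs <;> simp <;> omega
      · unfold ok; simp at *; omega
      · simp only [arc, two, ser, hb, v2]; simp; omega
      · simp [arc, two, ser, lk, hz]; omega
    · refine .single (via a z (0, if (f a).1 = 1 ∧ (f a).2.1 = 2 then 0 else 2, 0) ?_ ?_ ?_)
      · unfold ok; split_ifs <;> simp
      · have d1 : (f a).1 ≠ 3 := fun e => d (Or.inl e)
        have d2 : ¬ lk K (f a) := fun e => d (Or.inr e)
        simp only [arc, two, ser, d2]; split_ifs <;> simp [c, d1] <;> omega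
      · simp only [arc, two, ser, lk, hz]; split_ifs <;> simp
  have e2 : ∃ p, ok n K.length p ∧ arc n K p (f y) ∧ ¬ two n K t p (f y) := by
    have := (h2 _).1 ⟨y, rfl⟩
    have := ht (n - 1)
    by_cases c : (f y).1 = 1
    · exact ⟨(9 - t (n - 1), n - 1, K.length), by unfold ok; simp; omega,
        by simp [arc, two, ser, lk, c]; omega⟩
    by_cases d : (f y).1 = 2
    · refine ⟨(3, if (f y).2.1 = 0 then 1 else 0, (f y).2.2), ?_, ?_⟩
      · unfold ok at *; split_ifs <;> simp <;> omega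
      · simp only [arc, two, ser, lk, d]; split_ifs <;> simp <;> omega
    · refine ⟨(1, if (f y).2.1 = 1 then 2 else 1, 0), ?_, ?_⟩
      · unfold ok at *; split_ifs <;> simp
      · simp only [arc, two, ser, lk]; split_ifs <;> simp <;> omega
  obtain ⟨p, p1, p2⟩ := e2
  obtain ⟨v, rfl⟩ := ex p p1
  exact ⟨v, (e1 x).trans (ReflTransGen.mono (fun _ _ ⟨u, a, b⟩ => ⟨u, b, a⟩) _ _ (e1 v).swap),
    by rwa [h1]⟩

lemma of_sat [Finite V] (h : MatSat n K) : Split D := by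
  obtain ⟨y, hy⟩ := h
  have ht : ∀ v, (if y v then 5 else 4) = 4 ∨ (if y v then 5 else 4) = 5 := fun v => by
    split_ifs <;> simp
  refine ⟨fun a c => D a c ∧ ¬ two n K (fun v => if y v then 5 else 4) (f a) (f c), _,
    fun _ _ h => h.1, fun a c h => (h1 _ _).2 ?_, fun _ _ h => h.1.2 h.2, ⟨?_, fun a c _ =>
      alt_iff.2 (anti h1 h2 h0 ht (fun j hj => ?_) a c)⟩, strong h2 h3 h0 ht⟩
  · exact two_arc h
  · choose g hg using fun i : Fin 3 => (h2 (0, i, 0)).2 (by simp [ok])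
    simpa using Nat.card_le_card_of_injective g fun i j e => by
      have := hg i; rw [e, hg] at this; simpa [Fin.ext_iff, eq_comm] using this
  · obtain ⟨v, v1, v2, v3⟩ := hy _ (List.getElem_mem hj)
    refine ⟨v, v1, hj, ?_⟩
    simp only [ke, List.getD_eq_getElem _ _ hj, ← v3]
    split_ifs <;> omega

lemma to_sat (h : Split D) : MatSat n K := by
  classical
  obtain ⟨A, B, a1, a2, a3, a4, a5⟩ := h
  have ex : ∀ p, ok n K.length p → ∃ a, f a = p := fun p => (h2 p).2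
  obtain ⟨s, hs⟩ := ex (0, 0, 0) (by simp [ok])
  obtain ⟨z, hz⟩ := ex (1, 0, 0) (by simp [ok])
  let U := fun σ v => ∀ a b j, f a = (σ, v, j) → f b = (σ, v, j + 1) → B a b
  have e1 : ∀ v < n, U 4 v ∨ U 5 v := fun v hv => by
    by_contra c
    simp only [U, not_or, not_forall] at c
    obtain ⟨⟨a, b, i, i1, i2, i3⟩, a', b', j, j1, j2, j3⟩ := c
    suffices ∀ x, ReflTransGen B s x → (f x).1 = 0 ∨ (f x).1 = 2 ∨ (3 < (f x).1 ∧ ((f x).2.1 < v ∨
        ((f x).2.1 = v ∧ (((f x).1 = 4 ∧ (f x).2.2 ≤ i) ∨ ((f x).1 = 5 ∧ (f x).2.2 ≤ j))))) by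
      simpa [hz] using this z (a5 _ _)
    intro x hx
    induction hx with
    | refl => simp [hs]
    | @tail x w _ e ih =>
      exact cut ((h1 _ _).1 (a2 _ _ e)) hv ((h2 _).1 ⟨w, rfl⟩)
        (by simpa [ok, hv] using (h2 _).1 ⟨_, i2⟩) (by simpa [ok, hv] using (h2 _).1 ⟨_, j2⟩)
        (fun c => i3 (by rwa [h3 (c.1.trans i1.symm), h3 (c.2.trans i2.symm)] at e))
        (fun c => j3 (by rwa [h3 (c.1.trans j1.symm), h3 (c.2.trans j2.symm)] at e)) ih
  refine ⟨fun v => decide (U 5 v), fun κ hκ => ?_⟩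
  obtain ⟨j, hj, rfl⟩ := List.getElem_of_mem hκ
  obtain ⟨x, hx⟩ := ex (3, 0, j) (by simp [ok, hj])
  obtain ⟨v, v1, v2⟩ := alt_iff.1 (a4.2 x s (by rintro rfl; simp [hs] at hx))
  by_contra c
  have e2 : ∀ a u, A a u → ((f a).1 = 3 ∨ lk K (f a)) → (f a).2.2 = j → (f u).1 = 2 ∧ (f u).2.2 = j := by
    intro a u e b1 b2
    have o := (h2 _).1 ⟨a, rfl⟩
    refine ((out ((h1 _ _).1 (a1 _ _ e)) b1).resolve_right fun k => ?_).imp id fun k => k.trans b2
    have k2 : ¬ U (f a).1 (f a).2.1 := fun h => a3 a u ⟨e, h a u _ rfl k.2⟩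
    have k1 := k.1
    simp only [lk, b2, ke, List.getD_eq_getElem _ _ hj] at k1
    have k4 : (f a).2.1 < n := by have := k1.2.2; unfold ok at o; omega
    have k3 := e1 _ k4
    refine c ⟨(f a).2.1, k4, by omega, ?_⟩
    rw [decide_eq_true_eq]
    exact ⟨fun h => k3.resolve_left (by rwa [show (f a).1 = 4 by omega] at k2),
      fun h => by_contra fun d => k2 (by rwa [show (f a).1 = 5 by omega])⟩
  have e3 : ((f v).1 = 3 ∨ lk K (f v)) ∧ (f v).2.2 = j := by
    clear v2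
    induction v1 with
    | refl => simp [hx]
    | tail _ e ih =>
      obtain ⟨u, u1, u2⟩ := e
      have := e2 _ _ u1 ih.1 ih.2
      exact (inn ((h1 _ _).1 (a1 _ _ u2)) this.1).imp id fun k => k.trans this.2
  simpa [hs] using (e2 _ _ v2 e3.1 e3.2).1

end

def verts (I : ℕ × List (List ℕ)) : List T :=
  (List.range 6 ×ˢ List.range (I.1 + 3) ×ˢ List.range (I.2.length + 1)).filter fun p =>
    decide (ok I.1 I.2.length p)

def red (I : ℕ × List (List ℕ)) : List (List Bool) :=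
  mat (verts I) fun p q => decide (arc I.1 I.2 p q)

lemma red_pt : PT red := by
  unfold red verts
  refine PT.mat (PT.filter (PP.decide ?_) (by fun_prop)) (PP.decide ?_)
  · unfold ok; fun_prop
  · have h1 : PP fun x : List (List ℕ) × T => lk x.1 x.2 := by unfold lk ke; fun_prop
    have h2 : PP fun x : (ℕ × ℕ) × T × T => ser x.1.1 x.1.2 x.2.1 x.2.2 := by unfold ser; fun_prop
    have h3 : PP fun x : (ℕ × List (List ℕ)) × T × T => lk x.1.2 x.2.1 :=
      PP.comp (f := fun x : (ℕ × List (List ℕ)) × T × T => (x.1.2, x.2.1)) h1 (by fun_prop)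
    have h4 : PP fun x : (ℕ × List (List ℕ)) × T × T => ser x.1.1 x.1.2.length x.2.1 x.2.2 :=
      PP.comp (f := fun x : (ℕ × List (List ℕ)) × T × T => ((x.1.1, x.1.2.length), x.2)) h2 (by fun_prop)
    unfold arc
    exact PP.or (PP.and (by fun_prop) (PP.and (by fun_prop) (PP.and h3.not (by fun_prop))))
      (PP.or (by fun_prop) (PP.or (PP.and (PP.or (by fun_prop) h3) (by fun_prop)) h4))

lemma hard : Hard Rec := by
  refine Hard.of_matSat red_pt fun n K h0 => ?_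
  obtain ⟨g, f, h1, h2, h3⟩ := di_kit (verts (n, K)) (arc n K) (fun p => by unfold arc ser lk; omega)
    ((List.nodup_range.product (List.nodup_range.product List.nodup_range)).filter _)
    (M := red (n, K)) rfl
  have h2' : ∀ p, (∃ a, f a = p) ↔ ok n K.length p := by
    rintro ⟨a, b, c⟩
    simp only [h2, verts, List.mem_filter, List.mem_product, List.mem_range, decide_eq_true_eq]
    simp only [ok]; omega
  exact ⟨fun h => ⟨g, of_sat h1 h2' h3 h0 h⟩, fun h => to_sat h1 h2' h3 h0 h.2⟩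

abbrev Mx := List (List Bool)

def ver (z : Mx × Mx × Mx) : Prop :=
  IsDi z.1 ∧ 3 ≤ z.1.length ∧ ¬ ∃ x < z.1.length, ∃ y < z.1.length,
    (ent z.2.1 x y = true ∧ ¬ ent z.1 x y = true) ∨ (ent z.2.2 x y = true ∧ ¬ ent z.1 x y = true) ∨
    (ent z.2.1 x y = true ∧ ent z.2.2 x y = true) ∨
    (x ≠ y ∧ ¬ ∃ v < z.1.length, Rch z.1.length
      (fun a b => ∃ u < z.1.length, ent z.2.1 a u = true ∧ ent z.2.1 b u = true) x v ∧
        ent z.2.1 v y = true) ∨ ¬ Rch z.1.length (fun a b => ent z.2.2 a b = true) x y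

lemma ver_iff (M A B : Mx) : ver (M, A, B) ↔ IsDi M ∧
    (∀ x y : Fin M.length, ent A x y = true → Entry M x y) ∧
    (∀ x y : Fin M.length, ent B x y = true → Entry M x y) ∧
    (∀ x y : Fin M.length, ¬ (ent A x y = true ∧ ent B x y = true)) ∧
    Antistrong (fun x y : Fin M.length => ent A x y = true) ∧
    Strong (fun x y : Fin M.length => ent B x y = true) := by
  have e : ∀ x v : Fin M.length, ReflTransGen (fun a b : Fin M.length => ∃ u : Fin M.length,
      ent A a u = true ∧ ent A b u = true) x v ↔ Rch M.length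
      (fun a b => ∃ u < M.length, ent A a u = true ∧ ent A b u = true) x v := fun x v => by
    simp only [← rch_iff, Fin.exists_iff, exists_prop]
  simp only [Antistrong, alt_iff, e]
  simp only [ver, Strong, rch_iff (r := fun a b => ent B a b = true),
    Fin.forall_iff, Fin.exists_iff, Nat.card_eq_fintype_card, Fintype.card_fin, exists_prop, ne_eq,
    Fin.ext_iff, Entry, ← ent.eq_1]
  push Not
  exact and_congr_right fun _ => ⟨fun ⟨a, b⟩ => ⟨fun x hx y hy => (b x hx y hy).1,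
    fun x hx y hy => (b x hx y hy).2.1, fun x hx y hy => (b x hx y hy).2.2.1,
    ⟨a, fun x hx y hy => (b x hx y hy).2.2.2.1⟩, fun x hx y hy => (b x hx y hy).2.2.2.2⟩,
    fun ⟨a, b, c, d, e⟩ => ⟨d.1, fun x hx y hy => ⟨a x hx y hy, b x hx y hy, c x hx y hy,
      d.2 x hx y hy, e x hx y hy⟩⟩⟩

theorem result : NPComplete (Lang Rec) := by
  classical
  refine ⟨inNP_Lang (V := fun z => decide (ver z)) (PP.decide ?_) (2 * (X * (4 * X + 2)) + 3)
    (fun M ⟨g, A, B, h⟩ => ?_) fun M z h => ?_, hard.npHard⟩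
  · unfold ver
    refine PP.and (pp_isDi.comp (by fun_prop)) (PP.and (by fun_prop) (PP.not (PP.bex_lt (PP.bex_lt
      (PP.or (by fun_prop) (PP.or (by fun_prop) (PP.or (by fun_prop) (PP.or (PP.and (by fun_prop)
      (PP.not (PP.bex_lt (PP.and (PP.rch ?_ ?_ ?_ ?_) (by fun_prop)) (by fun_prop))))
      (PP.not (PP.rch ?_ ?_ ?_ ?_)))))) (by fun_prop)) (by fun_prop)))) <;> fun_prop
  · obtain ⟨a, a1, a2⟩ := exists_mat A
    obtain ⟨b, b1, b2⟩ := exists_mat B
    obtain rfl : A = _ := funext₂ fun x y => propext (a2 x y)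
    obtain rfl : B = _ := funext₂ fun x y => propext (b2 x y)
    have := (length_lt_size M).le
    have := Nat.mul_le_mul this (show 4 * M.length + 2 ≤ 4 * size M + 2 by omega)
    exact ⟨(a, b), by simp; omega, decide_eq_true ((ver_iff _ _ _).2 ⟨g, h⟩)⟩
  · have := (ver_iff M z.1 z.2).1 (of_decide_eq_true h)
    exact ⟨this.1, _, _, this.2⟩

end Pool.Agent.Results.MP_c99d13_lc.NPComplete
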